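import Pool.Agent.Q160.GdB3

/-!
# Balanced generalized de Bruijn sequences over alphabets with at least three letters

A cyclic sequence of length `n` over `A` is a function `ZMod n → A`.
-/

namespace Pool.Agent.Results.MP_a9eae2_co.BalancedExists

/-- The number of starting positions at which the word `w` of length `l` occurs in the cyclic
sequence `s` (indices are read modulo `n`). -/
def occ {A : Type} [DecidableEq A] {n l : ℕ} [NeZero n] (s : ZMod n → A) (w : Fin l → A) : ℕ :=
  (Finset.univ.filter (fun i : ZMod n => ∀ j : Fin l, s (i + (j : ℕ)) = w j)).card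

/-- `s` is a generalized de Bruijn sequence with parameters `(n, l, k)`: every word of length `l`
occurs at no more than `k` starting positions. -/
def IsGeneralizedDeBruijn {A : Type} [DecidableEq A] {n : ℕ} [NeZero n] (l k : ℕ)
    (s : ZMod n → A) : Prop :=
  ∀ w : Fin l → A, occ s w ≤ k

/-- `s` is `A`-balanced: all letters of `A` occur equally often. -/
def IsBalanced {A : Type} [DecidableEq A] {n : ℕ} [NeZero n] (s : ZMod n → A) : Prop :=
  ∀ a b : A, (Finset.univ.filter (fun i : ZMod n => s i = a)).card
    = (Finset.univ.filter (fun i : ZMod n => s i = b)).card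

/-- **Q1 of MP_a9eae2_co, affirmative answer.**  For every alphabet `A` with `m ≥ 3` letters and all
positive integers `n, l, k`, an `A`-balanced generalized de Bruijn sequence with parameters
`(n, l, k)` exists if and only if `m ∣ n` and `k ≥ n / m ^ l`. -/
theorem result : ∀ (A : Type) [Fintype A] [DecidableEq A], 3 ≤ Fintype.card A →
    ∀ (n l k : ℕ) [NeZero n], 0 < l → 0 < k →
      ((∃ s : ZMod n → A, IsBalanced s ∧ IsGeneralizedDeBruijn l k s) ↔
        Fintype.card A ∣ n ∧ (n : ℚ) / (Fintype.card A : ℚ) ^ l ≤ (k : ℚ)) := by
  intro A _ _ hA n l k _ hl _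
  set m := Fintype.card A with hm
  have hmQ : (0 : ℚ) < (m : ℚ) ^ l := by
    have : (0 : ℚ) < (m : ℚ) := by
      have : 0 < m := by omega
      exact_mod_cast this
    positivity
  have hiff : ((n : ℚ) / (m : ℚ) ^ l ≤ (k : ℚ)) ↔ n ≤ k * m ^ l := by
    rw [div_le_iff₀ hmQ]
    constructor
    · intro h; exact_mod_cast h
    · intro h; exact_mod_cast h
  rw [hiff]
  constructor
  · rintro ⟨s, hb, hg⟩
    constructor
    · -- balance
      obtain ⟨a0⟩ : Nonempty A := by
        rw [← Fintype.card_pos_iff]; omega
      have h1 : (Finset.univ : Finset (ZMod n)).card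
          = ∑ a : A, (Finset.univ.filter (fun i : ZMod n => s i = a)).card :=
        Finset.card_eq_sum_card_fiberwise (fun i _ => Finset.mem_univ (s i))
      rw [Finset.card_univ, ZMod.card, Finset.sum_congr rfl (fun a _ => hb a a0),
        Finset.sum_const, Finset.card_univ, smul_eq_mul] at h1
      exact ⟨_, h1⟩
    · -- pigeonhole
      have h1 : (Finset.univ : Finset (ZMod n)).card
          = ∑ w : Fin l → A, (Finset.univ.filter
            (fun i : ZMod n => (fun j : Fin l => s (i + (j : ℕ))) = w)).card :=
        Finset.card_eq_sum_card_fiberwise (fun i _ => Finset.mem_univ _)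
      have h2 : ∀ w ∈ (Finset.univ : Finset (Fin l → A)), (Finset.univ.filter
            (fun i : ZMod n => (fun j : Fin l => s (i + (j : ℕ))) = w)).card ≤ k := by
        intro w _
        refine le_trans (le_of_eq ?_) (hg w)
        unfold occ
        congr 1
        ext i
        simp only [Finset.mem_filter, Finset.mem_univ, true_and]
        exact funext_iff
      have h3 := Finset.sum_le_sum h2
      rw [← h1, Finset.sum_const, Finset.card_univ, Finset.card_univ, ZMod.card,
        Fintype.card_fun, Fintype.card_fin, smul_eq_mul, mul_comm] at h3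
      exact h3
  · rintro ⟨hd, hn⟩
    have : NeZero m := ⟨by omega⟩
    obtain ⟨s, h1, h2⟩ := Q160.GdB.hasSeq_all (m := m) hA hl hd hn
    have e : ZMod m ≃ A := Fintype.equivOfCardEq (by rw [ZMod.card])
    refine ⟨fun i => e (s i), ?_, ?_⟩
    · intro a b
      have h3 : ∀ c : A, (Finset.univ.filter (fun i : ZMod n => e (s i) = c))
          = (Finset.univ.filter (fun i : ZMod n => s i = e.symm c)) := by
        intro c
        ext i
        simp only [Finset.mem_filter, Finset.mem_univ, true_and]
        exact (Equiv.eq_symm_apply e).symm
      rw [h3, h3]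
      have h4 := (h1 (e.symm a)).trans (h1 (e.symm b)).symm
      exact Nat.eq_of_mul_eq_mul_left (by omega) h4
    · intro w
      refine le_trans (le_of_eq ?_) (h2 (fun j => e.symm (w j)))
      unfold occ
      congr 1
      ext i
      simp only [Finset.mem_filter, Finset.mem_univ, true_and]
      constructor
      · intro h
        funext j
        show s (i + (j : ℕ)) = e.symm (w j)
        rw [Equiv.eq_symm_apply]
        exact h j
      · intro h j
        have := congrFun h j
        change s (i + (j : ℕ)) = e.symm (w j) at this
        rw [Equiv.eq_symm_apply] at this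
        exact this

end Pool.Agent.Results.MP_a9eae2_co.BalancedExists
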